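import Pool.Agent.helper48.AGR.Spec

set_option autoImplicit false

namespace Pool.Agent.AGR

open Monoid Function

theorem TF (hNF : NF_stmt) (hEX : EX_stmt) (hLET : LET_stmt) (hNRM : NRM_stmt) : TF_stmt := by
  intro L R C _ _ _ f g v hf hg hL hR
  have hnrm : ∀ (x : Am f g) (a : Vt), ∃ b : Vt, x * inl (f (v a)) * x⁻¹ = inl (f (v b)) :=
    hNRM L R C f g v hL hR
  obtain ⟨h1, h2, h3, h4, h5, h6, -⟩ := hLET L R C f g
  have hil : Injective (inl : L →* Am f g) := inl_injective hf hg
  have hir : Injective (inr : R →* Am f g) := inr_injective hf hg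
  -- the left factor
  have caseL : ∀ y : L, (∀ a : Vt, Commute (inl y : Am f g) (inl (f (v a)))) → ∀ m : ℕ, m ≠ 0 →
      (∃ a, (inl y : Am f g) ^ m = inl (f (v a))) → ∃ a, (inl y : Am f g) = inl (f (v a)) := by
    intro y hc m hm hp
    obtain ⟨a, ha⟩ := hp
    have hcen : Cen (f.comp v) y := by
      intro b
      have := hc b
      have h' : (inl (y * f (v b)) : Am f g) = inl (f (v b) * y) := by
        rw [map_mul, map_mul]; exact this
      exact hil h'
    have hpow : y ^ m = (f.comp v) a := by
      apply hil
      rw [map_pow]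
      exact ha
    obtain ⟨b, hb⟩ := hL.tf y hcen m hm ⟨a, hpow⟩
    exact ⟨b, by rw [hb]; rfl⟩
  -- the right factor
  have caseR : ∀ y : R, (∀ a : Vt, Commute (inr y : Am f g) (inl (f (v a)))) → ∀ m : ℕ, m ≠ 0 →
      (∃ a, (inr y : Am f g) ^ m = inl (f (v a))) → ∃ a, (inr y : Am f g) = inl (f (v a)) := by
    intro y hc m hm hp
    obtain ⟨a, ha⟩ := hp
    have hcen : Cen (g.comp v) y := by
      intro b
      have h0 := hc b
      rw [glue] at h0
      have h' : (inr (y * g (v b)) : Am f g) = inr (g (v b) * y) := by
        rw [map_mul, map_mul]; exact h0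
      exact hir h'
    have hpow : y ^ m = (g.comp v) a := by
      apply hir
      rw [map_pow]
      rw [glue] at ha
      exact ha
    obtain ⟨b, hb⟩ := hR.tf y hcen m hm ⟨a, hpow⟩
    refine ⟨b, ?_⟩
    rw [hb, glue]
    rfl
  -- main induction
  have main : ∀ n : ℕ, ∀ (a b : Bool) (x : Am f g), Red f g a b n x →
      (∀ c : Vt, Commute x (inl (f (v c)))) → ∀ m : ℕ, m ≠ 0 →
      (∃ c, x ^ m = inl (f (v c))) → ∃ c, x = inl (f (v c)) := by
    intro n
    induction n using Nat.strong_induction_on with
    | _ n ih =>
      intro a b x hx hc m hm hp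
      have hn1 : 1 ≤ n := h1 a b n x hx
      rcases Nat.lt_or_ge 1 n with hn | hn
      · -- n at least two
        by_cases hab : a = b
        · subst hab
          obtain ⟨s, x', hxs, hs, hx'⟩ := h5 a a n x hx hn
          have hn3 : 2 ≤ n - 1 := by
            by_contra hlt
            have hn2 : n - 1 = 1 := by omega
            rw [hn2] at hx'
            have := (h2 (!a) a x' hx').1
            cases a <;> simp at this
          obtain ⟨x'', s', hx's, hx'', hs'⟩ := h4 (!a) a (n - 1) x' hx' hn3
          have hy : s⁻¹ * x * s = x'' * (s' * s) := by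
            rw [hxs, hx's]; group
          -- conjugate centralises V
          have hcy : ∀ c : Vt, Commute (s⁻¹ * x * s) (inl (f (v c))) := by
            intro c
            obtain ⟨d, hd⟩ := hnrm s c
            have hcd := hc d
            rw [← hd] at hcd
            have h7 : x * (s * inl (f (v c)) * s⁻¹) = (s * inl (f (v c)) * s⁻¹) * x := hcd
            change (s⁻¹ * x * s) * inl (f (v c)) = inl (f (v c)) * (s⁻¹ * x * s)
            calc (s⁻¹ * x * s) * inl (f (v c))
                = s⁻¹ * (x * (s * inl (f (v c)) * s⁻¹)) * s := by group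
              _ = s⁻¹ * ((s * inl (f (v c)) * s⁻¹) * x) * s := by rw [h7]
              _ = inl (f (v c)) * (s⁻¹ * x * s) := by group
          have hpy : ∃ c, (s⁻¹ * x * s) ^ m = inl (f (v c)) := by
            obtain ⟨c, hc'⟩ := hp
            obtain ⟨d, hd⟩ := hnrm s⁻¹ c
            refine ⟨d, ?_⟩
            rw [← hd, ← hc']
            have : s⁻¹ * x * s = s⁻¹ * x * (s⁻¹)⁻¹ := by rw [inv_inv]
            rw [this, conj_pow]
          have hfin : ∀ c : Vt, s⁻¹ * x * s = inl (f (v c)) → ∃ c, x = inl (f (v c)) := by
            intro c hcc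
            obtain ⟨d, hd⟩ := hnrm s c
            refine ⟨d, ?_⟩
            rw [← hd, ← hcc]
            group
          rcases h6 a s' s hs' hs with ⟨c, hcc⟩ | hred
          · -- absorbed
            have hyr : Red f g (!a) (!a) (n - 1 - 1) (s⁻¹ * x * s) := by
              rw [hy, hcc]
              have hx3 : Red f g (!a) (!a) (n - 1 - 1) x'' := hx''
              exact (h3 (!a) (!a) (n - 1 - 1) x'' c hx3).1
            obtain ⟨d, hd⟩ := ih (n - 1 - 1) (by omega) (!a) (!a) _ hyr hcy m hm hpy
            exact hfin d hd
          · have hyr : Red f g (!a) a (n - 1 - 1 + 1) (s⁻¹ * x * s) := by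
              rw [hy]
              refine Red.app (b := !a) hx'' ?_
              rw [Bool.not_not]
              exact hred
            obtain ⟨d, hd⟩ := ih (n - 1 - 1 + 1) (by omega) (!a) a _ hyr hcy m hm hpy
            exact hfin d hd
        · exfalso
          have hba : (!b) = a := by
            cases a <;> cases b <;> simp_all
          have hpow : ∀ k : ℕ, Red f g a b ((k + 1) * n) (x ^ (k + 1)) := by
            intro k
            induction k with
            | zero => simpa using hx
            | succ k ihk =>
              have h8 : Red f g a b ((k + 1) * n + n) (x ^ (k + 1) * x) := by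
                refine Red.app (b := b) ihk ?_
                rw [hba]
                exact hx
              have e1 : (k + 1 + 1) * n = (k + 1) * n + n := by ring
              rw [e1, pow_succ x (k + 1)]
              exact h8
          obtain ⟨c, hcc⟩ := hp
          obtain ⟨k, rfl⟩ := Nat.exists_eq_succ_of_ne_zero hm
          exact hNF L R C f g hf hg a b _ _ (hpow k) (v c) hcc
      · have hn' : n = 1 := by omega
        subst hn'
        rcases (h2 a b x hx).2 with ⟨-, l, -, rfl⟩ | ⟨-, r, -, rfl⟩
        · exact caseL l hc m hm hp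
        · exact caseR r hc m hm hp
  intro x hx n hn hp
  rcases hEX L R C f g hf hg x with ⟨c, rfl⟩ | ⟨a, b, k, hred⟩
  · exact caseL (f c) (fun a => hx a) n hn hp
  · exact main k a b x hred (fun a => hx a) n hn hp

end Pool.Agent.AGR
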